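import Mathlib

/-!
# MP_df7fe8_co: the abstract order lemma for the classification of the target chains

`c : Finset A → Finset B → C` is decreasing in the first and increasing in the second argument and has
many infinite jumps; then `C` contains one of the three chains `ω × ω*`, `ω* × ω` (lexicographic),
`(ω²)* + ω²`.
-/

set_option autoImplicit false

namespace Pool.Agent.Helper80_DF7

/-- A map on a lexicographic product. -/
theorem lexmap {I J C : Type*} [LinearOrder I] [LinearOrder J] [LinearOrder C] (s : I → J → C)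
    (hs : ∀ i, StrictMono (s i)) (hb : ∀ i j, i < j → ∀ x y, s i x < s j y) :
    ∃ f : I ×ₗ J → C, StrictMono f ∧ ∀ i x, f (toLex (i, x)) = s i x := by
  refine ⟨fun p => s (ofLex p).1 (ofLex p).2, ?_, fun i x => rfl⟩
  intro p q hpq
  rcases (Prod.Lex.lt_iff).1 hpq with h | ⟨h1, h2⟩
  · exact hb _ _ h _ _
  · show s (ofLex p).1 (ofLex p).2 < s (ofLex q).1 (ofLex q).2
    rw [h1]
    exact hs _ h2

/-- An infinite interval contains an increasing or a decreasing sequence. -/
theorem inf_seq {C : Type*} [LinearOrder C] {a b : C} (h : (Set.Icc a b).Infinite) :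
    (∃ s : ℕ → C, StrictMono s ∧ ∀ n, a ≤ s n ∧ s n ≤ b) ∨
      ∃ s : ℕ → C, StrictAnti s ∧ ∀ n, a ≤ s n ∧ s n ≤ b := by
  haveI : Infinite (Set.Icc a b) := h.to_subtype
  let f : ℕ → C := fun n => (Infinite.natEmbedding (Set.Icc a b) n : C)
  have hf : Function.Injective f := by
    intro m n hmn
    exact (Infinite.natEmbedding (Set.Icc a b)).injective (Subtype.ext hmn)
  have hfm : ∀ n, a ≤ f n ∧ f n ≤ b := fun n => (Infinite.natEmbedding (Set.Icc a b) n).2
  obtain ⟨g, hg⟩ := exists_increasing_or_nonincreasing_subseq (· < ·) f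
  rcases hg with hg | hg
  · left
    exact ⟨fun n => f (g n), fun m n hmn => hg m n hmn, fun n => hfm _⟩
  · right
    refine ⟨fun n => f (g n), fun m n hmn => ?_, fun n => hfm _⟩
    have h1 := hg m n hmn
    have h2 : f (g m) ≠ f (g n) := fun e => (g.injective.ne hmn.ne) (hf e)
    exact lt_of_le_of_ne (not_lt.1 h1) h2.symm

theorem Icc_inf_lt {C : Type*} [LinearOrder C] {a b : C} (h : (Set.Icc a b).Infinite) : a < b := by
  by_contra hab
  apply h
  rcases eq_or_lt_of_le (not_lt.1 hab) with e | e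
  · rw [e, Set.Icc_self]
    exact Set.finite_singleton _
  · rw [Set.Icc_eq_empty (not_le.2 e)]
    exact Set.finite_empty

/-- the conclusion: `C` contains one of the three chains -/
def Three (C : Type*) [LinearOrder C] : Prop :=
  (∃ f : ℕ ×ₗ ℕᵒᵈ → C, StrictMono f) ∨ (∃ f : ℕᵒᵈ ×ₗ ℕ → C, StrictMono f) ∨
    ∃ f : (ℕᵒᵈ ×ₗ ℕᵒᵈ) ⊕ₗ (ℕ ×ₗ ℕ) → C, StrictMono f

/-- Step 3. -/
theorem step3 {C : Type*} [LinearOrder C] (p q : ℕ → C) (h0 : p 0 = q 0)
    (hp : ∀ k, (Set.Icc (p (k + 1)) (p k)).Infinite)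
    (hq : ∀ k, (Set.Icc (q k) (q (k + 1))).Infinite) : Three C := by
  have hpa : StrictAnti p := strictAnti_nat_of_succ_lt fun k => Icc_inf_lt (hp k)
  have hqm : StrictMono q := strictMono_nat_of_lt_succ fun k => Icc_inf_lt (hq k)
  by_cases hA : ∀ N, ∃ k, N ≤ k ∧ ∃ s : ℕ → C, StrictMono s ∧ ∀ n, p (k + 1) ≤ s n ∧ s n ≤ p k
  · -- increasing sequences in infinitely many lower intervals
    right; left
    obtain ⟨κ, hκm, hκ⟩ : ∃ κ : ℕ → ℕ, StrictMono κ ∧ ∀ i, ∃ s : ℕ → C, StrictMono s ∧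
        ∀ n, p (κ i + 1) ≤ s n ∧ s n ≤ p (κ i) := by
      choose κ0 h1 h2 using hA
      refine ⟨fun i => Nat.rec (κ0 0) (fun _ m => κ0 (m + 1)) i, ?_, ?_⟩
      · apply strictMono_nat_of_lt_succ
        intro n
        exact lt_of_lt_of_le (Nat.lt_succ_self _) (h1 _)
      · intro i
        cases i with
        | zero => exact h2 0
        | succ i => exact h2 _
    choose s hs hb using hκ
    obtain ⟨f, hf, -⟩ := lexmap (I := ℕᵒᵈ) (J := ℕ) (fun i n => s (OrderDual.ofDual i) n)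
      (fun i => hs _) (by
        intro i j hij x y
        have hij' : OrderDual.ofDual j < OrderDual.ofDual i := hij
        calc s (OrderDual.ofDual i) x < s (OrderDual.ofDual i) (x + 1) := hs _ (Nat.lt_succ_self x)
          _ ≤ p (κ (OrderDual.ofDual i)) := (hb _ _).2
          _ ≤ p (κ (OrderDual.ofDual j) + 1) := hpa.antitone (hκm hij')
          _ ≤ s (OrderDual.ofDual j) y := (hb _ _).1)
    exact ⟨f, hf⟩
  · by_cases hB : ∀ N, ∃ k, N ≤ k ∧ ∃ s : ℕ → C, StrictAnti s ∧ ∀ n, q k ≤ s n ∧ s n ≤ q (k + 1)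
    · left
      obtain ⟨κ, hκm, hκ⟩ : ∃ κ : ℕ → ℕ, StrictMono κ ∧ ∀ i, ∃ s : ℕ → C, StrictAnti s ∧
          ∀ n, q (κ i) ≤ s n ∧ s n ≤ q (κ i + 1) := by
        choose κ0 h1 h2 using hB
        refine ⟨fun i => Nat.rec (κ0 0) (fun _ m => κ0 (m + 1)) i, ?_, ?_⟩
        · apply strictMono_nat_of_lt_succ
          intro n
          exact lt_of_lt_of_le (Nat.lt_succ_self _) (h1 _)
        · intro i
          cases i with
          | zero => exact h2 0
          | succ i => exact h2 _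
      choose s hs hb using hκ
      obtain ⟨f, hf, -⟩ := lexmap (I := ℕ) (J := ℕᵒᵈ) (fun i n => s i (OrderDual.ofDual n))
        (fun i => fun x y hxy => hs i hxy) (by
          intro i j hij x y
          calc s i (OrderDual.ofDual x) ≤ q (κ i + 1) := (hb _ _).2
            _ ≤ q (κ j) := hqm.monotone (hκm hij)
            _ ≤ s j (OrderDual.ofDual y + 1) := (hb _ _).1
            _ < s j (OrderDual.ofDual y) := hs _ (Nat.lt_succ_self _))
      exact ⟨f, hf⟩
    · right; right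
      push Not at hA hB
      obtain ⟨K, hK⟩ := hA
      obtain ⟨K', hK'⟩ := hB
      have hP : ∀ i, ∃ s : ℕ → C, StrictAnti s ∧
          ∀ n, p (K + 1 + i + 1) ≤ s n ∧ s n ≤ p (K + 1 + i) := by
        intro i
        rcases inf_seq (hp (K + 1 + i)) with ⟨s, h1, h2⟩ | h
        · obtain ⟨n, hn⟩ := hK (K + 1 + i) (by omega) s h1
          exact absurd (h2 n).2 (not_le.2 (hn (h2 n).1))
        · exact h
      have hQ : ∀ i, ∃ s : ℕ → C, StrictMono s ∧
          ∀ n, q (K' + i) ≤ s n ∧ s n ≤ q (K' + i + 1) := by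
        intro i
        rcases inf_seq (hq (K' + i)) with h | ⟨s, h1, h2⟩
        · exact h
        · obtain ⟨n, hn⟩ := hK' (K' + i) (by omega) s h1
          exact absurd (h2 n).2 (not_le.2 (hn (h2 n).1))
      choose s hs hsb using hP
      choose t ht htb using hQ
      obtain ⟨f, hf, hfe⟩ := lexmap (I := ℕᵒᵈ) (J := ℕᵒᵈ)
        (fun i n => s (OrderDual.ofDual i) (OrderDual.ofDual n))
        (fun i => fun x y hxy => hs _ hxy) (by
          intro i j hij x y
          have hij' : OrderDual.ofDual j < OrderDual.ofDual i := hij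
          calc s (OrderDual.ofDual i) (OrderDual.ofDual x) ≤ p (K + 1 + OrderDual.ofDual i) :=
                (hsb _ _).2
            _ ≤ p (K + 1 + OrderDual.ofDual j + 1) := hpa.antitone (by omega)
            _ ≤ s (OrderDual.ofDual j) (OrderDual.ofDual y + 1) := (hsb _ _).1
            _ < s (OrderDual.ofDual j) (OrderDual.ofDual y) := hs _ (Nat.lt_succ_self _))
      obtain ⟨g, hg, hge⟩ := lexmap (I := ℕ) (J := ℕ) (fun i n => t i n) (fun i => ht i) (by
          intro i j hij x y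
          calc t i x < t i (x + 1) := ht _ (Nat.lt_succ_self _)
            _ ≤ q (K' + i + 1) := (htb _ _).2
            _ ≤ q (K' + j) := hqm.monotone (by omega)
            _ ≤ t j y := (htb _ _).1)
      have hfg : ∀ x y, f x < g y := by
        intro x y
        have e1 : f x = s (OrderDual.ofDual (ofLex x).1) (OrderDual.ofDual (ofLex x).2) :=
          hfe (ofLex x).1 (ofLex x).2
        have e2 : g y = t (ofLex y).1 (ofLex y).2 := hge (ofLex y).1 (ofLex y).2
        rw [e1, e2]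
        calc s (OrderDual.ofDual (ofLex x).1) (OrderDual.ofDual (ofLex x).2)
            ≤ p (K + 1 + OrderDual.ofDual (ofLex x).1) := (hsb _ _).2
          _ < p 0 := hpa (by omega)
          _ = q 0 := h0
          _ ≤ q (K' + (ofLex y).1) := hqm.monotone (Nat.zero_le _)
          _ ≤ t (ofLex y).1 (ofLex y).2 := (htb _ _).1
      refine ⟨fun z => Sum.elim f g (ofLex z), ?_⟩
      intro x y hxy
      obtain ⟨x, rfl⟩ : ∃ x', toLex x' = x := ⟨ofLex x, rfl⟩
      obtain ⟨y, rfl⟩ : ∃ y', toLex y' = y := ⟨ofLex y, rfl⟩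
      rcases x with x | x <;> rcases y with y | y
      · exact hf (Sum.Lex.inl_lt_inl_iff.1 hxy)
      · exact hfg x y
      · exact absurd hxy (by exact Sum.Lex.not_inr_lt_inl)
      · exact hg (Sum.Lex.inr_lt_inr_iff.1 hxy)

/-- **The order lemma.** -/
theorem chain_lemma {A B C : Type*} [DecidableEq A] [DecidableEq B] [LinearOrder C]
    (c : Finset A → Finset B → C) (ι : ℕ → A)
    (hG : ∀ G G' F, G ⊂ G' → c G' F < c G F) (hF : ∀ G F F', F ⊂ F' → c G F < c G F')
    (P1 : ∀ G, ∃ a, a ∉ G ∧ ∀ F, ∃ b, b ∉ F ∧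
      (Set.Icc (c (insert a G) F) (c G (insert b F))).Infinite)
    (P2 : ∀ G0 F, ∃ b, b ∉ F ∧ ∀ G, G0 ⊆ G → (∀ x ∈ G, x ∈ G0 ∨ x ∈ Set.range ι) →
      ∃ k, ι k ∉ G ∧ (Set.Icc (c (insert (ι k) G) F) (c G (insert b F))).Infinite) :
    Three C := by
  have hG' : ∀ G G' F, G ⊆ G' → c G' F ≤ c G F := by
    intro G G' F h
    rcases eq_or_ne G G' with e | e
    · rw [e]
    · exact (hG G G' F (Finset.ssubset_iff_subset_ne.2 ⟨h, e⟩)).le
  have hF' : ∀ G F F', F ⊆ F' → c G F ≤ c G F' := by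
    intro G F F' h
    rcases eq_or_ne F F' with e | e
    · rw [e]
    · exact (hF G F F' (Finset.ssubset_iff_subset_ne.2 ⟨h, e⟩)).le
  -- a strictly larger finite subset of `B`
  have hnewB : ∃ Φ : Finset B → Finset B, ∀ F, F ⊂ Φ F := by
    obtain ⟨a, -, ha⟩ := P1 ∅
    choose b hb _ using ha
    exact ⟨fun F => insert (b F) F, fun F => Finset.ssubset_insert (hb F)⟩
  obtain ⟨Φ, hΦ⟩ := hnewB
  by_cases hS1 : ∀ G0, ∃ G, G0 ⊆ G ∧ ∃ F, ∀ F', c G F' < c G0 F
  · -- not stable
    right; left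
    choose γ hγ1 hγ2 using hS1
    choose φ hφ using hγ2
    let Gs : ℕ → Finset A := fun i => Nat.rec ∅ (fun _ G => γ G) i
    have hGs : ∀ i, Gs (i + 1) = γ (Gs i) := fun i => rfl
    have hGm : Monotone Gs := monotone_nat_of_le_succ fun i => by
      rw [hGs]
      exact hγ1 _
    let s : ℕ → ℕ → C := fun i n => c (Gs i) (Φ^[n] (φ (Gs i)))
    have hs : ∀ i, StrictMono (s i) := by
      intro i
      apply strictMono_nat_of_lt_succ
      intro n
      show c (Gs i) (Φ^[n] (φ (Gs i))) < c (Gs i) (Φ^[n + 1] (φ (Gs i)))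
      rw [Function.iterate_succ_apply']
      exact hF _ _ _ (hΦ _)
    obtain ⟨f, hf, -⟩ := lexmap (I := ℕᵒᵈ) (J := ℕ) (fun i n => s (OrderDual.ofDual i) n)
      (fun i => hs _) (by
        intro i j hij x y
        have hij' : OrderDual.ofDual j < OrderDual.ofDual i := hij
        calc s (OrderDual.ofDual i) x
            ≤ c (Gs (OrderDual.ofDual j + 1)) (Φ^[x] (φ (Gs (OrderDual.ofDual i)))) :=
              hG' _ _ _ (hGm hij')
          _ < c (Gs (OrderDual.ofDual j)) (φ (Gs (OrderDual.ofDual j))) := hφ _ _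
          _ = s (OrderDual.ofDual j) 0 := rfl
          _ ≤ s (OrderDual.ofDual j) y := (hs _).monotone (Nat.zero_le _))
    exact ⟨f, hf⟩
  push Not at hS1
  obtain ⟨G0, hG0⟩ := hS1
  -- going up at `G0`
  have hUp : ∀ F, ∃ F', F ⊆ F' ∧ (Set.Icc (c G0 F) (c G0 F')).Infinite := by
    intro F
    obtain ⟨a, -, haF⟩ := P1 G0
    obtain ⟨F1, hF1⟩ := hG0 (insert a G0) (Finset.subset_insert _ _) F
    obtain ⟨b, -, hinf⟩ := haF (F ∪ F1)
    refine ⟨insert b (F ∪ F1), fun x hx => Finset.mem_insert_of_mem (Finset.mem_union_left _ hx), ?_⟩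
    refine hinf.mono (Set.Icc_subset_Icc ?_ le_rfl)
    exact hF1.trans (hF' _ _ _ Finset.subset_union_right)
  let Fam : Finset A → Prop := fun G => G0 ⊆ G ∧ ∀ x ∈ G, x ∈ G0 ∨ x ∈ Set.range ι
  have hFam0 : Fam G0 := ⟨Finset.Subset.refl _, fun x hx => Or.inl hx⟩
  have hFamU : ∀ G G', Fam G → Fam G' → Fam (G ∪ G') := by
    intro G G' h h'
    refine ⟨h.1.trans Finset.subset_union_left, fun x hx => ?_⟩
    rcases Finset.mem_union.1 hx with hx | hx
    · exact h.2 x hx
    · exact h'.2 x hx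
  have hFamI : ∀ G k, Fam G → Fam (insert (ι k) G) := by
    intro G k h
    refine ⟨h.1.trans (Finset.subset_insert _ _), fun x hx => ?_⟩
    rcases Finset.mem_insert.1 hx with hx | hx
    · exact Or.inr ⟨k, hx.symm⟩
    · exact h.2 x hx
  have hnewA : ∃ Ψ : Finset A → Finset A, ∀ G, Fam G → G ⊂ Ψ G ∧ Fam (Ψ G) := by
    obtain ⟨b, -, hb⟩ := P2 G0 ∅
    have : ∀ G, ∃ G', Fam G → G ⊂ G' ∧ Fam G' := by
      intro G
      by_cases h : Fam G
      · obtain ⟨k, hk, -⟩ := hb G h.1 h.2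
        exact ⟨insert (ι k) G, fun _ => ⟨Finset.ssubset_insert hk, hFamI G k h⟩⟩
      · exact ⟨G, fun h' => absurd h' h⟩
    choose Ψ hΨ using this
    exact ⟨Ψ, hΨ⟩
  obtain ⟨Ψ, hΨ⟩ := hnewA
  by_cases hS2 : ∀ F0, ∃ F, F0 ⊆ F ∧ ∃ G, Fam G ∧ ∀ G', Fam G' → c G F0 < c G' F
  · left
    choose φ hφ1 hφ2 using hS2
    choose γ hγ1 hγ2 using hφ2
    let Fs : ℕ → Finset B := fun i => Nat.rec ∅ (fun _ F => φ F) i
    have hFs : ∀ i, Fs (i + 1) = φ (Fs i) := fun i => rfl
    have hFm : Monotone Fs := monotone_nat_of_le_succ fun i => by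
      rw [hFs]
      exact hφ1 _
    have hfam : ∀ i n, Fam (Ψ^[n] (γ (Fs i))) := by
      intro i n
      induction n with
      | zero => exact hγ1 _
      | succ n ih =>
        rw [Function.iterate_succ_apply']
        exact (hΨ _ ih).2
    let s : ℕ → ℕ → C := fun i n => c (Ψ^[n] (γ (Fs i))) (Fs i)
    have hs : ∀ i, StrictAnti (s i) := by
      intro i
      apply strictAnti_nat_of_succ_lt
      intro n
      show c (Ψ^[n + 1] (γ (Fs i))) (Fs i) < c (Ψ^[n] (γ (Fs i))) (Fs i)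
      rw [Function.iterate_succ_apply']
      exact hG _ _ _ (hΨ _ (hfam i n)).1
    obtain ⟨f, hf, -⟩ := lexmap (I := ℕ) (J := ℕᵒᵈ) (fun i n => s i (OrderDual.ofDual n))
      (fun i => fun x y hxy => hs i hxy) (by
        intro i j hij x y
        calc s i (OrderDual.ofDual x) ≤ s i 0 := (hs i).antitone (Nat.zero_le _)
          _ = c (γ (Fs i)) (Fs i) := rfl
          _ < c (Ψ^[OrderDual.ofDual y] (γ (Fs j))) (Fs (i + 1)) := hγ2 _ _ (hfam _ _)
          _ ≤ s j (OrderDual.ofDual y) := hF' _ _ _ (hFm hij))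
    exact ⟨f, hf⟩
  push Not at hS2
  obtain ⟨F0, hF0⟩ := hS2
  -- going down at `F0`
  have hDown : ∀ G, Fam G → ∃ G', Fam G' ∧ (Set.Icc (c G' F0) (c G F0)).Infinite := by
    intro G hGf
    obtain ⟨b, -, hb⟩ := P2 G0 F0
    obtain ⟨G1, hG1f, hG1⟩ := hF0 (insert b F0) (Finset.subset_insert _ _) G hGf
    have hU := hFamU G G1 hGf hG1f
    obtain ⟨k, -, hinf⟩ := hb (G ∪ G1) hU.1 hU.2
    refine ⟨insert (ι k) (G ∪ G1), hFamI _ _ hU, ?_⟩
    refine hinf.mono (Set.Icc_subset_Icc le_rfl ?_)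
    exact (hG' _ _ _ Finset.subset_union_right).trans hG1
  choose up hup1 hup2 using hUp
  have hdn : ∃ dn : Finset A → Finset A, ∀ G, Fam G → Fam (dn G) ∧
      (Set.Icc (c (dn G) F0) (c G F0)).Infinite := by
    have : ∀ G, ∃ G', Fam G → Fam G' ∧ (Set.Icc (c G' F0) (c G F0)).Infinite := by
      intro G
      by_cases h : Fam G
      · obtain ⟨G', h'⟩ := hDown G h
        exact ⟨G', fun _ => h'⟩
      · exact ⟨G, fun h' => absurd h' h⟩
    choose dn hdn using this
    exact ⟨dn, hdn⟩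
  obtain ⟨dn, hdn⟩ := hdn
  have hdf : ∀ n, Fam (dn^[n] G0) := by
    intro n
    induction n with
    | zero => exact hFam0
    | succ n ih =>
      rw [Function.iterate_succ_apply']
      exact (hdn _ ih).1
  refine step3 (fun n => c (dn^[n] G0) F0) (fun n => c G0 (up^[n] F0)) rfl ?_ ?_
  · intro k
    show (Set.Icc (c (dn^[k + 1] G0) F0) (c (dn^[k] G0) F0)).Infinite
    rw [Function.iterate_succ_apply']
    exact (hdn _ (hdf k)).2
  · intro k
    show (Set.Icc (c G0 (up^[k] F0)) (c G0 (up^[k + 1] F0))).Infinite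
    rw [Function.iterate_succ_apply']
    exact hup2 _

end Pool.Agent.Helper80_DF7
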