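import Pool.Agent.Helper93_SMZ.Final

namespace Pool.Agent.Helper80_DF7

open Cardinal
open Pool.Agent.SMZ

universe u

section

variable {M : Type u} [Lattice M]

open Classical in
/-- The function with value `a` on `G`, `b` on `A - G`, `b` on `F`, `a` on `B - F`. -/
noncomputable def dval (a b : M) {A B : Type u} (G : Finset A) (F : Finset B) : A ⊕ B → M :=
  Sum.elim (fun x => if x ∈ G then a else b) (fun y => if y ∈ F then b else a)

variable {a b : M} {A B : Type u}

theorem not_ba (hab : a < b) : ¬ b ≤ a := not_le_of_gt hab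

theorem dval_le (hab : a < b) {G G' : Finset A} {F F' : Finset B} :
    dval a b G F ≤ dval a b G' F' ↔ G' ⊆ G ∧ F ⊆ F' := by
  classical
  constructor
  · intro h
    refine ⟨fun x hx => ?_, fun y hy => ?_⟩
    · by_contra hx'
      have h1 := h (Sum.inl x)
      simp only [dval, Sum.elim_inl, if_pos hx, if_neg hx'] at h1
      exact not_ba hab h1
    · by_contra hy'
      have h1 := h (Sum.inr y)
      simp only [dval, Sum.elim_inr, if_pos hy, if_neg hy'] at h1
      exact not_ba hab h1
  · rintro ⟨hG, hF⟩ (x | y)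
    · simp only [dval, Sum.elim_inl]
      by_cases hx : x ∈ G
      · rw [if_pos hx]
        by_cases hx' : x ∈ G'
        · rw [if_pos hx']
        · rw [if_neg hx']
          exact hab.le
      · rw [if_neg hx, if_neg (fun h => hx (hG h))]
    · simp only [dval, Sum.elim_inr]
      by_cases hy : y ∈ F
      · rw [if_pos hy, if_pos (hF hy)]
      · rw [if_neg hy]
        by_cases hy' : y ∈ F'
        · rw [if_pos hy']
          exact hab.le
        · rw [if_neg hy']

open Classical in
theorem dval_sup (hab : a < b) (G G' : Finset A) (F F' : Finset B) :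
    dval a b G F ⊔ dval a b G' F' = dval a b (G ∩ G') (F ∪ F') := by
  have h1 : b ⊔ a = b := sup_eq_left.mpr hab.le
  have h2 : a ⊔ b = b := sup_eq_right.mpr hab.le
  funext t
  rcases t with x | y
  · simp only [dval, Pi.sup_apply, Sum.elim_inl, Finset.mem_inter]
    by_cases hx : x ∈ G <;> by_cases hx' : x ∈ G' <;> simp [hx, hx', h1, h2]
  · simp only [dval, Pi.sup_apply, Sum.elim_inr, Finset.mem_union]
    by_cases hy : y ∈ F <;> by_cases hy' : y ∈ F' <;> simp [hy, hy', h1, h2]

open Classical in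
theorem dval_inf (hab : a < b) (G G' : Finset A) (F F' : Finset B) :
    dval a b G F ⊓ dval a b G' F' = dval a b (G ∪ G') (F ∩ F') := by
  have h1 : b ⊓ a = a := inf_eq_right.mpr hab.le
  have h2 : a ⊓ b = a := inf_eq_left.mpr hab.le
  funext t
  rcases t with x | y
  · simp only [dval, Pi.inf_apply, Sum.elim_inl, Finset.mem_union]
    by_cases hx : x ∈ G <;> by_cases hx' : x ∈ G' <;> simp [hx, hx', h1, h2]
  · simp only [dval, Pi.inf_apply, Sum.elim_inr, Finset.mem_inter]
    by_cases hy : y ∈ F <;> by_cases hy' : y ∈ F' <;> simp [hy, hy', h1, h2]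

/-- The sublattice of all functions `dval a b G F`. -/
noncomputable def dlat (hab : a < b) (A B : Type u) : Sublattice (A ⊕ B → M) where
  carrier := {f | ∃ (G : Finset A) (F : Finset B), f = dval a b G F}
  supClosed' := by
    classical
    rintro _ ⟨G, F, rfl⟩ _ ⟨G', F', rfl⟩
    exact ⟨G ∩ G', F ∪ F', dval_sup hab G G' F F'⟩
  infClosed' := by
    classical
    rintro _ ⟨G, F, rfl⟩ _ ⟨G', F', rfl⟩
    exact ⟨G ∪ G', F ∩ F', dval_inf hab G G' F F'⟩

/-- The element of the sublattice. -/
noncomputable def delt (hab : a < b) (G : Finset A) (F : Finset B) : dlat hab A B :=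
  ⟨dval a b G F, G, F, rfl⟩

theorem delt_le (hab : a < b) {G G' : Finset A} {F F' : Finset B} :
    delt hab G F ≤ delt hab G' F' ↔ G' ⊆ G ∧ F ⊆ F' :=
  dval_le hab

theorem exists_delt (hab : a < b) (z : dlat hab A B) : ∃ G F, z = delt hab G F := by
  obtain ⟨z, G, F, hz⟩ := z
  exact ⟨G, F, Subtype.ext hz⟩

theorem dlat_finite (hab : a < b) (x y : dlat hab A B) : (Set.Icc x y).Finite := by
  classical
  obtain ⟨G, F, rfl⟩ := exists_delt hab x
  obtain ⟨G', F', rfl⟩ := exists_delt hab y
  refine Set.Finite.subset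
    ((G.powerset ×ˢ F'.powerset).image (fun t => delt hab t.1 t.2)).finite_toSet ?_
  rintro z ⟨h1, h2⟩
  obtain ⟨G'', F'', rfl⟩ := exists_delt hab z
  rw [delt_le] at h1 h2
  simp only [Finset.coe_image, Set.mem_image, Finset.mem_coe, Finset.mem_product,
    Finset.mem_powerset]
  exact ⟨(G'', F''), ⟨h1.1, h2.2⟩, rfl⟩

theorem dlat_coinit (hab : a < b) [Infinite A] : coinit (dlat hab A B) = Cardinal.mk A := by
  apply le_antisymm
  · refine (coinit_le (Set.range (fun G : Finset A => delt (B := B) hab G ∅)) (fun z => ?_)).trans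
      ?_
    · obtain ⟨G, F, rfl⟩ := exists_delt hab z
      exact ⟨_, ⟨G, rfl⟩, (delt_le hab).mpr ⟨subset_rfl, Finset.empty_subset _⟩⟩
    · refine Cardinal.mk_range_le.trans ?_
      rw [Cardinal.mk_finset_of_infinite]
  · obtain ⟨D, hD, hD2⟩ := coinit_spec (dlat hab A B)
    rw [← hD]
    have hz : ∀ z : D, ∃ G : Finset A, ∃ F : Finset B, (z : dlat hab A B) = delt hab G F :=
      fun z => exists_delt hab z.1
    choose G F hGF using hz
    refine cover_le G (fun x => ?_)
    obtain ⟨z, hz, hzx⟩ := hD2 (delt hab {x} ∅)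
    refine ⟨⟨z, hz⟩, ?_⟩
    have h1 := hGF ⟨z, hz⟩
    simp only at h1
    rw [h1, delt_le] at hzx
    exact hzx.1 (Finset.mem_singleton_self x)

theorem dlat_cofin (hab : a < b) [Infinite B] : cofin (dlat hab A B) = Cardinal.mk B := by
  apply le_antisymm
  · refine (cofin_le (Set.range (fun F : Finset B => delt (A := A) hab ∅ F)) (fun z => ?_)).trans
      ?_
    · obtain ⟨G, F, rfl⟩ := exists_delt hab z
      exact ⟨_, ⟨F, rfl⟩, (delt_le hab).mpr ⟨Finset.empty_subset _, subset_rfl⟩⟩
    · refine Cardinal.mk_range_le.trans ?_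
      rw [Cardinal.mk_finset_of_infinite]
  · obtain ⟨D, hD, hD2⟩ := cofin_spec (dlat hab A B)
    rw [← hD]
    have hz : ∀ z : D, ∃ G : Finset A, ∃ F : Finset B, (z : dlat hab A B) = delt hab G F :=
      fun z => exists_delt hab z.1
    choose G F hGF using hz
    refine cover_le F (fun y => ?_)
    obtain ⟨z, hz, hzy⟩ := hD2 (delt hab ∅ {y})
    refine ⟨⟨z, hz⟩, ?_⟩
    have h1 := hGF ⟨z, hz⟩
    simp only at h1
    rw [h1, delt_le] at hzy
    exact hzy.2 (Finset.mem_singleton_self y)

theorem dlat_int (hab : a < b) [Infinite A] [Infinite B] :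
    ∃ g : ℤ → dlat hab A B, StrictMono g := by
  refine ⟨fun k => delt hab ((Finset.range (-k).toNat).map (Infinite.natEmbedding A))
    ((Finset.range k.toNat).map (Infinite.natEmbedding B)), ?_⟩
  intro k l hkl
  rw [lt_iff_le_not_ge, delt_le, delt_le]
  simp only [Finset.map_subset_map, Finset.range_subset_range]
  omega

end

theorem exists_distr {M : Type u} [Lattice M] [Nontrivial M] (A B : Type u) [Infinite A]
    [Infinite B] :
    ∃ (ι : Type u) (S : Sublattice (ι → M)), (∀ x y : S, (Set.Icc x y).Finite) ∧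
      SMZ.coinit S = Cardinal.mk A ∧ SMZ.cofin S = Cardinal.mk B ∧ ∃ g : ℤ → S, StrictMono g := by
  obtain ⟨x, y, hxy⟩ := exists_pair_ne M
  have hab : ∃ a b : M, a < b := by
    by_cases h : x ≤ y
    · exact ⟨x, y, lt_of_le_of_ne h hxy⟩
    · exact ⟨x ⊓ y, x, lt_of_le_of_ne inf_le_left (fun h' => h (inf_eq_left.mp h'))⟩
  obtain ⟨a, b, hab⟩ := hab
  exact ⟨A ⊕ B, dlat hab A B, dlat_finite hab, dlat_coinit hab, dlat_cofin hab, dlat_int hab⟩

end Pool.Agent.Helper80_DF7
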